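import Pool.Agent.R526.BM.Pat

set_option autoImplicit false

/-! # Almost surely every pattern occurs infinitely often -/

namespace Pool.Agent.R526.BM

open MeasureTheory ProbabilityTheory Filter Finset Pool.Agent.R526.RS Pool.Agent.R526.PT Topology

open scoped Classical

theorem patterns (m : ℕ) : ∃ C : ℕ, ∀ (D δ : ℝ), 1 ≤ D → 0 < δ → δ ≤ 1 → ∀ (W : ℕ → ℕ), Monotone W →
    (∀ᶠ n : ℕ in atTop, (W (2 * n) : ℝ) ≤ D * W n) →
    Tendsto (fun n : ℕ => Real.log (W n) / Real.log n) atTop (𝓝 0) →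
    ∀ (Ω : Type) [MeasurableSpace Ω] (μ : Measure Ω) [IsProbabilityMeasure μ]
      (X : ℕ → Ω → ℕ), (∀ p, Measurable (X p)) → iIndepFun X μ → ∀ p₀ : ℕ,
      (∀ p : ℕ, p.Prime → p₀ ≤ p → Law μ (X p) 0 (W p) δ) →
      ∀ᵐ ω ∂μ, ∀ (M : ℕ) (H : Finset ℕ), (∀ᶠ n : ℕ in atTop, M + C ≤ W n) → H.card ≤ m →
        (∀ h ∈ H, Even h ∧ h ≤ M) → ∀ K : ℕ, ∃ n : ℕ, K ≤ n ∧
          ∀ h ≤ M, (∃ p : ℕ, p.Prime ∧ p + 2 * X p ω = n + h) ↔ h ∈ H := by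
  obtain ⟨C, x₀, hclu⟩ := clusters m
  refine ⟨C + 4, ?_⟩
  intro D δ hD hδ0 hδ1 W hmono hdbl hW Ω _ μ _ X hX hind p₀ hlaw
  rw [ae_all_iff]
  intro M
  rw [ae_all_iff]
  intro H
  by_cases hcond : (∀ᶠ n : ℕ in atTop, M + (C + 4) ≤ W n) ∧ H.card ≤ m ∧ (∀ h ∈ H, Even h ∧ h ≤ M)
  swap
  · filter_upwards with ω h1 h2 h3
    exact absurd ⟨h1, h2, h3⟩ hcond
  obtain ⟨hM, hHc, hH⟩ := hcond
  obtain ⟨n₃, hn₃⟩ := eventually_atTop.1 hM
  set n₁ : ℕ := max n₃ p₀ with hn₁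
  have hsc := scale μ m C x₀ hclu D δ hD hδ0 hδ1 W hmono hdbl hW hX hind p₀ hlaw M
    (by filter_upwards [hM] with n hn; omega) H hHc
    (fun h hh => ⟨Nat.even_iff.1 (hH h hh).1, (hH h hh).2⟩)
  have hsum : Summable (fun N : ℕ => 1 / (N : ℝ) ^ 2) := Real.summable_one_div_nat_pow.2 (by norm_num)
  have hae1 := bc_sum μ (fun N => {ω | ¬ Disp W C M N X H ω}) _ (fun N => by positivity) hsum hsc
  have hae2 : ∀ᵐ ω ∂μ, ∀ p : ℕ, p.Prime → n₁ ≤ p → X p ω ≤ W p := by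
    rw [ae_all_iff]
    intro p
    by_cases hp : p.Prime ∧ n₁ ≤ p
    · have hWp : 1 ≤ W p := by
        have := hn₃ p ((le_max_left _ _).trans hp.2)
        omega
      filter_upwards [ae_mem μ (hX p) (hlaw p hp.1 ((le_max_right _ _).trans hp.2)) hWp] with ω hω _ _
      have := hω.2
      omega
    · filter_upwards with ω h1 h2
      exact absurd ⟨h1, h2⟩ hp
  filter_upwards [hae1, hae2] with ω hω1 hω2 _ _ _ K
  set B₀ : ℕ := ∑ p ∈ range n₁, (p + 2 * X p ω) with hB₀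
  have hbig : ∀ᶠ N : ℕ in atTop, ((K + B₀ + n₃ + 1 : ℕ) : ℝ) ≤ (N : ℝ) ^ (1 / 4 : ℝ) :=
    ((tendsto_rpow_atTop (by norm_num)).comp tendsto_natCast_atTop_atTop).eventually_ge_atTop _
  obtain ⟨N, hN1, hN2⟩ := (hω1.and hbig).exists
  have hD1 : Disp W C M N X H ω := by
    by_contra hcon
    exact hN1 hcon
  obtain ⟨u, n, hu1, hu2, hn1, hn2, hshow⟩ := hD1
  have hu3 : K + B₀ + n₃ + 1 ≤ u := by
    have : ((K + B₀ + n₃ + 1 : ℕ) : ℝ) ≤ u := hN2.trans hu1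
    exact_mod_cast this
  refine ⟨n, by omega, fun h hh => ?_⟩
  rw [← hshow h hh]
  constructor
  swap
  · rintro ⟨q, hq, h4⟩
    rw [mem_pr] at hq
    exact ⟨q, hq.2, h4⟩
  rintro ⟨q, hq, h4⟩
  refine ⟨q, ?_, h4⟩
  rw [mem_pr]
  have hqn : n₁ ≤ q := by
    by_contra hcon
    have h5 : q + 2 * X q ω ≤ B₀ := by
      rw [hB₀]
      exact single_le_sum (f := fun p => p + 2 * X p ω) (fun i _ => Nat.zero_le _) (mem_range.2 (by omega))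
    omega
  have hXW := hω2 q hq hqn
  have hqu : W q ≤ W (u + C + M + 2) := hmono (by omega)
  have hWpos : M + (C + 4) ≤ W (u + C + M + 2) := hn₃ _ (by omega)
  have hq1 := hq.two_le
  exact ⟨⟨by omega, by omega⟩, hq⟩

end Pool.Agent.R526.BM
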