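import Mathlib

set_option autoImplicit false

/-! # Large separated subsets of a finite set of integers -/

namespace Pool.Agent.R526.BM

open Finset

/-- a large separated subset -/
theorem separated (S : Finset ℕ) (V : ℕ) (hV : 1 ≤ V) :
    ∃ J ⊆ S, (∀ i ∈ J, ∀ j ∈ J, i < j → i + V ≤ j) ∧ S.card ≤ V * J.card := by
  induction hn : S.card using Nat.strong_induction_on generalizing S with
  | _ n ih =>
    rcases S.eq_empty_or_nonempty with h | h
    · refine ⟨∅, empty_subset _, by simp, ?_⟩
      rw [h] at hn
      simp at hn
      omega
    · set s := S.min' h with hs
      have hsS : s ∈ S := S.min'_mem h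
      set S' := S.filter (fun j => s + V ≤ j) with hS'
      have hlt : S'.card < n := by
        rw [← hn]
        apply card_lt_card
        rw [ssubset_iff_of_subset (filter_subset _ _)]
        exact ⟨s, hsS, by rw [mem_filter]; omega⟩
      obtain ⟨J, hJ, h1, h2⟩ := ih S'.card hlt S' rfl
      refine ⟨insert s J, ?_, ?_, ?_⟩
      · intro j hj
        rw [mem_insert] at hj
        rcases hj with rfl | hj
        · exact hsS
        · exact (mem_filter.1 (hJ hj)).1
      · intro i hi j hj hij
        rw [mem_insert] at hi hj
        rcases hi with rfl | hi
        · rcases hj with rfl | hj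
          · omega
          · exact (mem_filter.1 (hJ hj)).2
        · rcases hj with rfl | hj
          · have := (mem_filter.1 (hJ hi)).2
            omega
          · exact h1 i hi j hj hij
      · have hsJ : s ∉ J := by
          intro hc
          have := (mem_filter.1 (hJ hc)).2
          omega
        rw [card_insert_of_notMem hsJ]
        have h3 : S.card ≤ V + S'.card := by
          have h4 : S ⊆ Ico s (s + V) ∪ S' := by
            intro j hj
            rw [mem_union, mem_Ico, hS', mem_filter]
            have : s ≤ j := S.min'_le j hj
            rcases Nat.lt_or_ge j (s + V) with h5 | h5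
            · exact Or.inl ⟨this, h5⟩
            · exact Or.inr ⟨hj, h5⟩
          have h5 := (card_le_card h4).trans (card_union_le _ _)
          rw [Nat.card_Ico] at h5
          omega
        rw [hn] at h3
        calc n ≤ V + S'.card := h3
          _ ≤ V + V * J.card := by omega
          _ = V * (J.card + 1) := by ring

end Pool.Agent.R526.BM
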