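import Pool.Agent.R526.PT.One
import Pool.Agent.R526.BM.Sep
import Pool.Agent.H361R2.GMain

set_option autoImplicit false

/-! # Patterns for moves which tend to infinity arbitrarily slowly -/

namespace Pool.Agent.R526.BM

open MeasureTheory ProbabilityTheory Filter Finset Pool.Agent.R526.RS Pool.Agent.R526.PT Topology

open scoped Classical

/-- many clusters of `m` primes -/
theorem clusters (m : ℕ) : ∃ C : ℕ, ∃ x₀ : ℝ, ∀ x : ℝ, x₀ ≤ x →
    x ^ (1 / 2 : ℝ) ≤ (((Icc 1 ⌊x⌋₊).filter (fun u => ∃ Q : Finset ℕ, m ≤ Q.card ∧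
      ∀ q ∈ Q, q.Prime ∧ u < q ∧ q ≤ u + C)).card : ℝ) := by
  obtain ⟨k, hk, h⟩ := Pool.Agent.H361R2.GM.maynardTaoG (m + 1) (by omega)
  have hf : 1 ≤ (k + 1).factorial := Nat.factorial_pos _
  obtain ⟨δ, hδ0, hδ1, x₀, hx₀⟩ := h (fun _ => 1) (fun i => ((i : ℕ) + 1) * (k + 1).factorial) (fun _ => le_rfl)
    (fun i => Nat.mul_pos (by omega) hf) (by
      intro i j hij heq
      simp only [one_mul] at heq
      have := Nat.eq_of_mul_eq_mul_right hf heq
      exact hij (Fin.ext (by omega))) (by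
      intro p hp
      rcases le_or_gt p (k + 1) with hpk | hpk
      · refine ⟨1, fun hd => hp.one_lt.ne' (Nat.dvd_one.1 hd), fun i hd => ?_⟩
        have h1 : p ∣ ((i : ℕ) + 1) * (k + 1).factorial := Dvd.dvd.mul_left ((hp.dvd_factorial).2 hpk) _
        have h2 : p ∣ 1 := by
          have := (Nat.dvd_add_left h1).1 hd
          simpa using this
        exact hp.one_lt.ne' (Nat.dvd_one.1 h2)
      · have hnd : ¬ p ∣ (k + 1).factorial := by
          rw [hp.dvd_factorial]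
          omega
        refine ⟨(k + 1).factorial, hnd, fun i hd => ?_⟩
        have h5 : 1 * (k + 1).factorial + ((i : ℕ) + 1) * (k + 1).factorial =
            ((i : ℕ) + 2) * (k + 1).factorial := by ring
        rw [h5] at hd
        rcases (hp.dvd_mul).1 hd with h6 | h6
        · have := Nat.le_of_dvd (by omega) h6
          have := i.2
          omega
        · exact hnd h6)
  refine ⟨k * (k + 1).factorial, max x₀ 1, fun x hx => ?_⟩
  have hx1 : 1 ≤ x := (le_max_right _ _).trans hx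
  have h1 := hx₀ x ((le_max_left _ _).trans hx)
  have h2 : x ^ (1 / 2 : ℝ) ≤ x ^ (1 - δ / 2) := Real.rpow_le_rpow_of_exponent_le hx1 (by linarith)
  refine (h2.trans h1).trans ?_
  have h3 : (Icc 1 ⌊x⌋₊).filter (fun n => (∀ p : ℕ, p.Prime → p ∣ n → x ^ δ < p) ∧
      m + 1 + 1 ≤ (univ.filter (fun i : Fin k => (1 * n + ((i : ℕ) + 1) * (k + 1).factorial).Prime)).card) ⊆
      (Icc 1 ⌊x⌋₊).filter (fun u => ∃ Q : Finset ℕ, m ≤ Q.card ∧
        ∀ q ∈ Q, q.Prime ∧ u < q ∧ q ≤ u + k * (k + 1).factorial) := by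
    intro u hu
    rw [mem_filter] at hu ⊢
    refine ⟨hu.1, (univ.filter (fun i : Fin k => (1 * u + ((i : ℕ) + 1) * (k + 1).factorial).Prime)).image
      (fun i : Fin k => 1 * u + ((i : ℕ) + 1) * (k + 1).factorial), ?_, ?_⟩
    · rw [card_image_of_injective]
      · have := hu.2.2
        omega
      · intro i j hij
        have h4 : ((i : ℕ) + 1) * (k + 1).factorial = ((j : ℕ) + 1) * (k + 1).factorial := by
          simpa using hij
        have := Nat.eq_of_mul_eq_mul_right hf h4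
        exact Fin.ext (by omega)
    · intro q hq
      rw [mem_image] at hq
      obtain ⟨i, hi, rfl⟩ := hq
      rw [mem_filter] at hi
      refine ⟨hi.2, ?_, ?_⟩
      · have : 1 ≤ ((i : ℕ) + 1) * (k + 1).factorial := Nat.mul_pos (by omega) hf
        omega
      · have h4 : ((i : ℕ) + 1) * (k + 1).factorial ≤ k * (k + 1).factorial :=
          Nat.mul_le_mul_right _ (by have := i.2; omega)
        omega
  exact_mod_cast card_le_card h3

variable {Ω : Type} [MeasurableSpace Ω] (μ : Measure Ω) [IsProbabilityMeasure μ]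

/-- the primes of `(u, v]` -/
noncomputable def pr (u v : ℕ) : Finset ℕ := (Ioc u v).filter (fun p => p.Prime)

theorem mem_pr {u v p : ℕ} : p ∈ pr u v ↔ (u < p ∧ p ≤ v) ∧ p.Prime := by
  unfold pr
  rw [mem_filter, mem_Ioc]

/-- one cluster -/
theorem pos_bound (δ : ℝ) (hδ0 : 0 < δ) (hδ1 : δ ≤ 1) (W : ℕ → ℕ) {X : ℕ → Ω → ℕ}
    (hX : ∀ p, Measurable (X p)) (hind : iIndepFun X μ) (m C M u a B : ℕ) (D2 : ℝ) (hD2 : 1 ≤ D2)
    (Q₀ : Finset ℕ) (hQ₀ : m ≤ Q₀.card) (hQ₁ : ∀ q ∈ Q₀, q.Prime ∧ u < q ∧ q ≤ u + C)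
    (H : Finset ℕ) (hHc : H.card ≤ m) (hH : ∀ h ∈ H, h % 2 = 0 ∧ h ≤ M)
    (hBu : 3 * B + 2 ≤ u) (hMa : M + C + 4 ≤ a) (haB : a ≤ B) (hBa : (B : ℝ) ≤ D2 * a)
    (hR : ∀ p : ℕ, p.Prime → u - 3 * B < p → p ≤ u + C + M + 2 → Law μ (X p) 0 (W p) δ ∧ a ≤ W p ∧ W p ≤ B) :
    ∃ (n : ℕ) (T : ℕ → Set ℕ), u + C < n ∧ n ≤ u + C + 2 ∧
      (δ / B) ^ m * δ ^ (M + 1) * Real.exp (-((M + 2) * (3 * D2 + 1))) ≤
        μ.real (Hit X (pr (n - 3 * B) (n + M)) T) ∧
      ∀ ω ∈ Hit X (pr (n - 3 * B) (n + M)) T, ∀ h ≤ M,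
        (∃ p ∈ pr (n - 3 * B) (n + M), p + 2 * X p ω = n + h) ↔ h ∈ H := by
  set n : ℕ := u + C + 1 + (u + C) % 2 with hn
  have haR : (0 : ℝ) < a := by exact_mod_cast (by omega : 0 < a)
  have hBR : (1 : ℝ) ≤ B := by exact_mod_cast (by omega : 1 ≤ B)
  obtain ⟨T, h1, h2⟩ := one μ hX hind δ hδ0 hδ1 W a B n M (pr (n - 3 * B) (n + M)) Q₀ H (by omega) (by
      have : (M : ℝ) + C + 4 ≤ a := by exact_mod_cast hMa
      have : (0 : ℝ) ≤ C := Nat.cast_nonneg C
      linarith) (by omega) (by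
      intro p hp
      rw [mem_pr] at hp
      refine ⟨?_, hR p hp.2 (by omega) (by omega)⟩
      rcases hp.2.eq_two_or_odd with h5 | h5
      · omega
      · exact h5) (by
      intro q hq
      obtain ⟨h3, h4, h5⟩ := hQ₁ q hq
      rw [mem_pr]
      exact ⟨by omega, h3⟩) (by
      intro q hq
      obtain ⟨h3, h4, h5⟩ := hQ₁ q hq
      omega) (hHc.trans hQ₀) hH
  refine ⟨n, T, by omega, by omega, ?_, h2⟩
  refine le_trans ?_ h1
  have hδB : δ / B ≤ 1 := by
    rw [div_le_one (by linarith)]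
    linarith
  set y : ℝ := ((M : ℝ) + 2) / (2 * a) with hy
  have hMar : (M : ℝ) + 4 ≤ a := by
    have : (M : ℝ) + C + 4 ≤ a := by exact_mod_cast hMa
    have : (0 : ℝ) ≤ C := Nat.cast_nonneg C
    linarith
  have hM0 : (0 : ℝ) ≤ M := Nat.cast_nonneg M
  have hy0 : 0 ≤ y := by positivity
  have hy1 : y ≤ 1 / 2 := by
    rw [hy, div_le_div_iff₀ (by positivity) (by norm_num)]
    linarith
  have f1 : (δ / B) ^ m ≤ (δ / B) ^ H.card := pow_le_pow_of_le_one (by positivity) hδB hHc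
  have f2 : δ ^ (M + 1) ≤ δ ^ ((pr (n - 3 * B) (n + M)).filter (fun p => n ≤ p ∧ p ≤ n + M)).card := by
    apply pow_le_pow_of_le_one hδ0.le hδ1
    have h3 : (pr (n - 3 * B) (n + M)).filter (fun p => n ≤ p ∧ p ≤ n + M) ⊆ Icc n (n + M) := by
      intro p hp
      rw [mem_filter] at hp
      rw [mem_Icc]
      exact hp.2
    have h4 := card_le_card h3
    rw [Nat.card_Icc] at h4
    omega
  have f3 : Real.exp (-((M + 2) * (3 * D2 + 1))) ≤ (1 - y) ^ (pr (n - 3 * B) (n + M)).card := by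
    have h1 : Real.exp (-(2 * y)) ≤ 1 - y := by
      have h2 : Real.exp (-(2 * y)) ≤ 1 / (1 + 2 * y) := by
        rw [Real.exp_neg, ← one_div]
        apply one_div_le_one_div_of_le (by linarith)
        have := Real.add_one_le_exp (2 * y)
        linarith
      refine h2.trans ?_
      rw [div_le_iff₀ (by linarith)]
      nlinarith
    refine le_trans ?_ (pow_le_pow_left₀ (Real.exp_pos _).le h1 _)
    rw [← Real.exp_nat_mul]
    apply Real.exp_le_exp.2
    have h3 : (((pr (n - 3 * B) (n + M)).card : ℕ) : ℝ) ≤ 3 * B + M := by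
      have h4 : (pr (n - 3 * B) (n + M)).card ≤ 3 * B + M := by
        unfold pr
        refine (card_filter_le _ _).trans ?_
        rw [Nat.card_Ioc]
        omega
      exact_mod_cast h4
    have h4 : 2 * y = ((M : ℝ) + 2) / a := by
      rw [hy]
      field_simp
    have h5 : (((pr (n - 3 * B) (n + M)).card : ℕ) : ℝ) * (2 * y) ≤ (3 * B + M) * (((M : ℝ) + 2) / a) := by
      rw [h4]
      exact mul_le_mul_of_nonneg_right h3 (by positivity)
    have h6 : (3 * (B : ℝ) + M) * (((M : ℝ) + 2) / a) ≤ (M + 2) * (3 * D2 + 1) := by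
      rw [← mul_div_assoc, div_le_iff₀ haR]
      have h7 : 3 * (B : ℝ) + M ≤ (3 * D2 + 1) * a := by nlinarith
      have h8 := mul_le_mul_of_nonneg_right h7 (show 0 ≤ (M : ℝ) + 2 by positivity)
      linarith
    linarith
  exact mul_le_mul (mul_le_mul f1 f2 (by positivity) (by positivity)) f3 (Real.exp_pos _).le (by positivity)

/-- the pattern is displayed after one of the clusters -/
def Disp (W : ℕ → ℕ) (C M N : ℕ) (X : ℕ → Ω → ℕ) (H : Finset ℕ) (ω : Ω) : Prop :=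
  ∃ u n : ℕ, (N : ℝ) ^ (1 / 4 : ℝ) ≤ u ∧ u ≤ N ∧ u + C < n ∧ n ≤ u + C + 2 ∧
    ∀ h ≤ M, (∃ p ∈ pr (n - 3 * W (u + C + M + 2)) (n + M), p + 2 * X p ω = n + h) ↔ h ∈ H

theorem dbl2 (W : ℕ → ℕ) (hmono : Monotone W) (D : ℝ) (hD : 1 ≤ D) (n₁ : ℕ)
    (h : ∀ n, n₁ ≤ n → (W (2 * n) : ℝ) ≤ D * W n) (p v : ℕ) (hp : n₁ ≤ p) (hv : v ≤ 4 * p) :
    (W v : ℝ) ≤ D ^ 2 * W p := by
  have h1 : (W v : ℝ) ≤ W (2 * (2 * p)) := by exact_mod_cast hmono (by omega)
  have h2 := h (2 * p) (by omega)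
  have h3 := h p hp
  nlinarith

theorem scale (m C : ℕ) (x₀ : ℝ) (hclu : ∀ x : ℝ, x₀ ≤ x →
    x ^ (1 / 2 : ℝ) ≤ (((Icc 1 ⌊x⌋₊).filter (fun u => ∃ Q : Finset ℕ, m ≤ Q.card ∧
      ∀ q ∈ Q, q.Prime ∧ u < q ∧ q ≤ u + C)).card : ℝ))
    (D δ : ℝ) (hD : 1 ≤ D) (hδ0 : 0 < δ) (hδ1 : δ ≤ 1) (W : ℕ → ℕ) (hmono : Monotone W)
    (hdbl : ∀ᶠ n : ℕ in atTop, (W (2 * n) : ℝ) ≤ D * W n)
    (hW : Tendsto (fun n : ℕ => Real.log (W n) / Real.log n) atTop (𝓝 0)) {X : ℕ → Ω → ℕ}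
    (hX : ∀ p, Measurable (X p)) (hind : iIndepFun X μ) (p₀ : ℕ)
    (hlaw : ∀ p : ℕ, p.Prime → p₀ ≤ p → Law μ (X p) 0 (W p) δ) (M : ℕ) (hM : ∀ᶠ n : ℕ in atTop, M + C + 4 ≤ W n)
    (H : Finset ℕ) (hHc : H.card ≤ m) (hH : ∀ h ∈ H, h % 2 = 0 ∧ h ≤ M) :
    ∀ᶠ N : ℕ in atTop, μ.real {ω | ¬ Disp W C M N X H ω} ≤ 1 / (N : ℝ) ^ 2 := by
  obtain ⟨n₁, hn₁⟩ := eventually_atTop.1 hdbl
  obtain ⟨n₂, hn₂⟩ := eventually_atTop.1 hM
  set e : ℝ := 1 / (16 * (m + 1)) with he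
  have he0 : 0 < e := by positivity
  set κ : ℝ := δ ^ (M + 1) * Real.exp (-((M + 2) * (3 * D ^ 2 + 1))) with hκ
  have hκ0 : 0 < κ := by positivity
  have hN : Tendsto (fun N : ℕ => (N : ℝ)) atTop atTop := tendsto_natCast_atTop_atTop
  have hL : Tendsto (fun N : ℕ => Real.log (N : ℝ)) atTop atTop := Real.tendsto_log_atTop.comp hN
  -- size of the moves
  have eW : ∀ᶠ N : ℕ in atTop, (W (2 * N) : ℝ) ≤ Real.exp (e * Real.log N) := by
    have h1 : Tendsto (fun N : ℕ => 2 * N) atTop atTop := tendsto_id.const_mul_atTop' (by norm_num)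
    filter_upwards [h1.eventually (hW.eventually_lt_const (show (0 : ℝ) < e / 2 by positivity)),
      h1.eventually hM, eventually_ge_atTop 2] with N g1 g2 g3
    have g3' : (2 : ℝ) ≤ N := by exact_mod_cast g3
    have hlN : Real.log 2 ≤ Real.log N := Real.log_le_log (by norm_num) g3'
    have hl2 : 0 < Real.log 2 := Real.log_pos (by norm_num)
    have hlog : Real.log ((2 * N : ℕ) : ℝ) = Real.log 2 + Real.log N := by
      push_cast
      rw [Real.log_mul (by norm_num) (by linarith)]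
    rw [hlog, div_lt_iff₀ (by linarith)] at g1
    have hWpos : (0 : ℝ) < W (2 * N) := by exact_mod_cast (by omega : 0 < W (2 * N))
    rw [← Real.exp_log hWpos]
    apply Real.exp_le_exp.2
    nlinarith
  have e1 : ∀ᶠ L : ℝ in atTop, 3 * Real.exp (L / 16) + (M + C + 10 + 2 * n₁ + 2 * n₂ + 2 * p₀ : ℕ) ≤ Real.exp (L / 4) / 2 := by
    have h1 : Tendsto (fun L : ℝ => Real.exp (3 * L / 16)) atTop atTop :=
      Real.tendsto_exp_atTop.comp (by
        have : Tendsto (fun L : ℝ => (3 / 16) * L) atTop atTop := tendsto_id.const_mul_atTop (by norm_num)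
        refine this.congr (fun L => by ring))
    filter_upwards [h1.eventually_ge_atTop (2 * (3 + (M + C + 10 + 2 * n₁ + 2 * n₂ + 2 * p₀ : ℕ))), eventually_ge_atTop 0] with L h2 h3
    have h4 : Real.exp (L / 4) = Real.exp (L / 16) * Real.exp (3 * L / 16) := by rw [← Real.exp_add]; ring_nf
    have h5 : 1 ≤ Real.exp (L / 16) := Real.one_le_exp (by linarith)
    have h6 : (0 : ℝ) ≤ (M + C + 10 + 2 * n₁ + 2 * n₂ + 2 * p₀ : ℕ) := Nat.cast_nonneg _
    rw [h4]
    have h7 := mul_le_mul_of_nonneg_left h2 (by linarith : (0 : ℝ) ≤ Real.exp (L / 16))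
    nlinarith
  have e2 : ∀ᶠ L : ℝ in atTop, 2 * L ≤ Real.exp (5 * L / 16) / 8 := by
    have h1 := (isLittleO_pow_exp_pos_mul_atTop 1 (show (0 : ℝ) < 5 / 16 by norm_num)).def
      (show (0 : ℝ) < 1 / 16 by norm_num)
    filter_upwards [h1, eventually_ge_atTop 1] with L h2 h3
    rw [Real.norm_of_nonneg (by positivity), Real.norm_of_nonneg (Real.exp_pos _).le, pow_one] at h2
    have h4 : (5 : ℝ) * L / 16 = 5 / 16 * L := by ring
    rw [h4]
    linarith
  have e3 : ∀ᶠ L : ℝ in atTop, Real.exp (L / 4) + 1 ≤ Real.exp (L / 2) / 2 := by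
    have h1 : Tendsto (fun L : ℝ => Real.exp (L / 4)) atTop atTop :=
      Real.tendsto_exp_atTop.comp (tendsto_id.atTop_div_const (by norm_num))
    filter_upwards [h1.eventually_ge_atTop 4] with L h2
    have h4 : Real.exp (L / 2) = Real.exp (L / 4) * Real.exp (L / 4) := by rw [← Real.exp_add]; ring_nf
    rw [h4]
    nlinarith
  have e0 : ∀ᶠ L : ℝ in atTop, ((M + C + 10 : ℕ) : ℝ) ≤ Real.exp (L / 16) :=
    (Real.tendsto_exp_atTop.comp (tendsto_id.atTop_div_const (by norm_num))).eventually_ge_atTop _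
  filter_upwards [eW, hL.eventually e1, hL.eventually e2, hL.eventually e3, hN.eventually_ge_atTop x₀,
    hL.eventually_ge_atTop (16 * (m * Real.log (1 / δ) + Real.log (1 / κ))), eventually_ge_atTop 3,
    eventually_ge_atTop (C + M + 2), hL.eventually e0]
    with N gW g1 g2 g3 g4 g5 g6 g7 g8
  set L := Real.log (N : ℝ) with hLdef
  have hN0 : (0 : ℝ) < N := by exact_mod_cast (by omega : 0 < N)
  have hL0 : 0 ≤ L := Real.log_nonneg (by exact_mod_cast (by omega : 1 ≤ N))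
  have hpow4 : (N : ℝ) ^ (1 / 4 : ℝ) = Real.exp (L / 4) := by
    rw [Real.rpow_def_of_pos hN0, hLdef]
    congr 1
    ring
  have hpow2 : (N : ℝ) ^ (1 / 2 : ℝ) = Real.exp (L / 2) := by
    rw [Real.rpow_def_of_pos hN0, hLdef]
    congr 1
    ring
  have heL : Real.exp (e * L) ≤ Real.exp (L / 16) := by
    apply Real.exp_le_exp.2
    have : e ≤ 1 / 16 := by
      rw [he]
      apply one_div_le_one_div_of_le (by norm_num)
      have : (0 : ℝ) ≤ m := Nat.cast_nonneg m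
      linarith
    nlinarith
  set S : Finset ℕ := ((Icc 1 N).filter (fun u => ∃ Q : Finset ℕ, m ≤ Q.card ∧
      ∀ q ∈ Q, q.Prime ∧ u < q ∧ q ≤ u + C)).filter (fun u => (N : ℝ) ^ (1 / 4 : ℝ) ≤ u) with hS
  have hScard : Real.exp (L / 2) / 2 ≤ S.card := by
    have h1 := hclu N g4
    rw [Nat.floor_natCast] at h1
    have h2 : (Icc 1 N).filter (fun u => ∃ Q : Finset ℕ, m ≤ Q.card ∧
      ∀ q ∈ Q, q.Prime ∧ u < q ∧ q ≤ u + C) ⊆ S ∪ range ⌈(N : ℝ) ^ (1 / 4 : ℝ)⌉₊ := by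
      intro u hu
      rw [mem_union, hS, mem_filter, mem_range]
      by_cases h3 : (N : ℝ) ^ (1 / 4 : ℝ) ≤ u
      · exact Or.inl ⟨hu, h3⟩
      · right
        rw [Nat.lt_ceil]
        exact not_le.1 h3
    have h3 := (card_le_card h2).trans (card_union_le _ _)
    rw [card_range] at h3
    have h4 : ((⌈(N : ℝ) ^ (1 / 4 : ℝ)⌉₊ : ℕ) : ℝ) < (N : ℝ) ^ (1 / 4 : ℝ) + 1 := Nat.ceil_lt_add_one (by positivity)
    have h5 : ((((Icc 1 N).filter (fun u => ∃ Q : Finset ℕ, m ≤ Q.card ∧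
      ∀ q ∈ Q, q.Prime ∧ u < q ∧ q ≤ u + C)).card : ℕ) : ℝ) ≤ S.card + ⌈(N : ℝ) ^ (1 / 4 : ℝ)⌉₊ := by
      exact_mod_cast h3
    rw [hpow2] at h1
    rw [hpow4] at h4 h5
    linarith
  set V : ℕ := 3 * W (2 * N) + M + C + 10 with hV
  have hVr : (V : ℝ) ≤ 4 * Real.exp (L / 16) := by
    have h1 : (V : ℝ) = 3 * W (2 * N) + (M + C + 10 : ℕ) := by rw [hV]; push_cast; ring
    rw [h1]
    linarith
  obtain ⟨J, hJS, hJsep, hJcard⟩ := separated S V (by omega)
  have hmem : ∀ u ∈ J, u ≤ N ∧ (∃ Q : Finset ℕ, m ≤ Q.card ∧ ∀ q ∈ Q, q.Prime ∧ u < q ∧ q ≤ u + C) ∧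
      Real.exp (L / 4) ≤ u := by
    intro u hu
    have h1 := hJS hu
    rw [hS, mem_filter, mem_filter, mem_Icc, hpow4] at h1
    exact ⟨h1.1.1.2, h1.1.2, h1.2⟩
  have hWle : ∀ u : ℕ, u ≤ N → W (u + C + M + 2) ≤ W (2 * N) := fun u hu => hmono (by omega)
  have key : ∀ u ∈ J, ∃ (n : ℕ) (T : ℕ → Set ℕ), u + C < n ∧ n ≤ u + C + 2 ∧
      Real.exp (-(L / 8)) ≤ μ.real (Hit X (pr (n - 3 * W (u + C + M + 2)) (n + M)) T) ∧
      ∀ ω ∈ Hit X (pr (n - 3 * W (u + C + M + 2)) (n + M)) T, ∀ h ≤ M,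
        (∃ p ∈ pr (n - 3 * W (u + C + M + 2)) (n + M), p + 2 * X p ω = n + h) ↔ h ∈ H := by
    intro u hu
    obtain ⟨huN, ⟨Q, hQ1, hQ2⟩, hu4⟩ := hmem u hu
    set B := W (u + C + M + 2) with hB
    have hBN : (B : ℝ) ≤ Real.exp (e * L) := by
      have : (B : ℝ) ≤ W (2 * N) := by exact_mod_cast hWle u huN
      linarith
    have hcst : ((M + C + 10 + 2 * n₁ + 2 * n₂ + 2 * p₀ : ℕ) : ℝ) + 3 * B ≤ (u : ℝ) / 2 := by linarith
    have hcst' : 2 * (M + C + 10 + 2 * n₁ + 2 * n₂ + 2 * p₀ + 3 * B) ≤ u := by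
      have : ((2 * (M + C + 10 + 2 * n₁ + 2 * n₂ + 2 * p₀ + 3 * B) : ℕ) : ℝ) ≤ u := by
        push_cast at hcst ⊢
        linarith
      exact_mod_cast this
    have hMB : M + C + 4 ≤ B := hn₂ _ (by omega)
    have hD2 : 1 ≤ D ^ 2 := one_le_pow₀ hD
    have hB0 : (0 : ℝ) < B := by exact_mod_cast (by omega : 0 < B)
    set a : ℕ := max ⌈(B : ℝ) / D ^ 2⌉₊ (M + C + 4) with ha
    obtain ⟨n, T, h1, h2, h3, h4⟩ := pos_bound μ δ hδ0 hδ1 W hX hind m C M u a B (D ^ 2) hD2 Q hQ1 hQ2 H hHc hH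
      (by omega) (le_max_right _ _) (max_le (by
        rw [Nat.ceil_le]
        exact div_le_self hB0.le hD2) hMB) (by
        have h5 : (B : ℝ) / D ^ 2 ≤ a := (Nat.le_ceil _).trans (by exact_mod_cast le_max_left _ _)
        rw [div_le_iff₀ (by linarith)] at h5
        linarith) (by
        intro p hp h5 h6
        have h7 : n₁ ≤ p := by omega
        refine ⟨hlaw p hp (by omega), max_le ?_ (hn₂ p (by omega)), hmono h6⟩
        rw [Nat.ceil_le, div_le_iff₀ (by linarith)]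
        have := dbl2 W hmono D hD n₁ hn₁ p (u + C + M + 2) h7 (by omega)
        linarith)
    refine ⟨n, T, h1, h2, le_trans ?_ h3, h4⟩
    -- the probability
    have h5 : Real.exp (-(m * (Real.log (1 / δ) + e * L))) ≤ (δ / B) ^ m := by
      have h6 : Real.exp (-(Real.log (1 / δ) + e * L)) ≤ δ / B := by
        rw [neg_add, Real.exp_add, one_div, Real.log_inv, neg_neg, Real.exp_log hδ0, Real.exp_neg, ← div_eq_mul_inv]
        exact div_le_div_of_nonneg_left hδ0.le hB0 hBN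
      have h7 : Real.exp (-(m * (Real.log (1 / δ) + e * L))) = Real.exp (-(Real.log (1 / δ) + e * L)) ^ m := by
        rw [← Real.exp_nat_mul]
        congr 1
        ring
      rw [h7]
      exact pow_le_pow_left₀ (Real.exp_pos _).le h6 _
    have h6 : κ = Real.exp (-(Real.log (1 / κ))) := by
      rw [one_div, Real.log_inv, neg_neg, Real.exp_log hκ0]
    have h7 : (δ / B) ^ m * δ ^ (M + 1) * Real.exp (-((M + 2) * (3 * D ^ 2 + 1))) = (δ / B) ^ m * κ := by
      rw [hκ]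
      ring
    rw [h7]
    refine le_trans ?_ (mul_le_mul_of_nonneg_right h5 hκ0.le)
    conv_rhs => rw [h6]
    rw [← Real.exp_add]
    apply Real.exp_le_exp.2
    have h8 : (m : ℝ) * e ≤ 1 / 16 := by
      rw [he, mul_one_div, div_le_div_iff₀ (by positivity) (by norm_num)]
      linarith
    have h9 : (m : ℝ) * (e * L) ≤ 1 / 16 * L := by
      have := mul_le_mul_of_nonneg_right h8 hL0
      linarith
    linarith
  choose! n T k1 k2 k3 k4 using key
  have hsub : {ω | ¬ Disp W C M N X H ω} ⊆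
      ⋂ u ∈ J, (Hit X (pr (n u - 3 * W (u + C + M + 2)) (n u + M)) (T u))ᶜ := by
    intro ω hω
    simp only [Set.mem_iInter, Set.mem_compl_iff]
    intro u hu hc'
    apply hω
    obtain ⟨huN, -, hu4⟩ := hmem u hu
    refine ⟨u, n u, ?_, huN, k1 u hu, k2 u hu, k4 u hu ω hc'⟩
    rw [hpow4]
    exact hu4
  refine (measureReal_mono hsub).trans ?_
  refine (none_le μ hX hind J (fun u => pr (n u - 3 * W (u + C + M + 2)) (n u + M)) T ?_
    (Real.exp (-(L / 8))) k3).trans ?_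
  · intro i hi j hj hij
    rw [Finset.disjoint_left]
    intro p hp hp'
    rw [mem_pr] at hp hp'
    have i1 := k1 i hi
    have i2 := k2 i hi
    have j1 := k1 j hj
    have j2 := k2 j hj
    have wi := hWle i (hmem i hi).1
    have wj := hWle j (hmem j hj).1
    rcases lt_or_gt_of_ne hij with h5 | h5
    · have := hJsep i hi j hj h5
      omega
    · have := hJsep j hj i hi h5
      omega
  · have h1 : (1 : ℝ) / (N : ℝ) ^ 2 = Real.exp (-(2 * L)) := by
      rw [Real.exp_neg, two_mul, Real.exp_add, hLdef, Real.exp_log hN0, one_div, sq]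
    rw [h1]
    apply Real.exp_le_exp.2
    rw [neg_le_neg_iff]
    refine g2.trans ?_
    have h5 : (S.card : ℝ) ≤ V * J.card := by exact_mod_cast hJcard
    have h6 : Real.exp (L / 2) / 2 ≤ 4 * Real.exp (L / 16) * J.card :=
      (hScard.trans h5).trans (mul_le_mul_of_nonneg_right hVr (Nat.cast_nonneg _))
    have h7 : Real.exp (5 * L / 16) = Real.exp (L / 2) * Real.exp (-(3 * L / 16)) := by
      rw [← Real.exp_add]; ring_nf
    have h8 : Real.exp (-(L / 8)) = Real.exp (L / 16) * Real.exp (-(3 * L / 16)) := by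
      rw [← Real.exp_add]; ring_nf
    rw [h7, h8]
    have h9 := mul_le_mul_of_nonneg_right h6 (Real.exp_pos (-(3 * L / 16))).le
    calc Real.exp (L / 2) * Real.exp (-(3 * L / 16)) / 8 = (Real.exp (L / 2) / 2 * Real.exp (-(3 * L / 16))) / 4 := by ring
      _ ≤ (4 * Real.exp (L / 16) * J.card * Real.exp (-(3 * L / 16))) / 4 := by linarith
      _ = J.card * (Real.exp (L / 16) * Real.exp (-(3 * L / 16))) := by ring

end Pool.Agent.R526.BM
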